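import Pool.Agent.Helper48.AA.Goals

/-!
# Any number of moduli (packet MB2)
-/

set_option autoImplicit false

open Finset

namespace Pool.Agent.Helper67.AA

open Pool.Agent.Helper48.AA

/-- Numbers of one class modulo `m`. -/
lemma card_class (S : Finset ℕ) (X m : ℕ) (hm : 0 < m) (hS : S ⊆ Icc 1 X)
    (h : ∀ x ∈ S, ∀ y ∈ S, x ≡ y [MOD m]) : S.card ≤ X / m + 1 := by
  rw [← card_range (X / m + 1)]
  refine card_le_card_of_injOn (fun x => x / m) (fun x hx => ?_) (fun x hx y hy hxy => ?_)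
  · have := (mem_Icc.mp (hS hx)).2
    simp only [coe_range, Set.mem_Iio]
    exact Nat.lt_succ_of_le (Nat.div_le_div_right this)
  · have h1 : x % m = y % m := h x hx y hy
    have h2 : x / m = y / m := hxy
    rw [← Nat.div_add_mod x m, ← Nat.div_add_mod y m, h1, h2]

/-- Packet MB2. -/
theorem gMB2 : StmtMB2 := by
  classical
  intro r d a X hd hX
  have hdp : ∀ j, (0 : ℝ) < d j := fun j => by exact_mod_cast hd j
  have hlcm0 : 0 < univ.lcm d := by
    rw [Nat.pos_iff_ne_zero, Ne, Finset.lcm_eq_zero_iff]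
    rintro ⟨j, -, hj⟩
    have := hd j
    omega
  have key : ∀ U : Finset (Fin r),
      (∑ x ∈ Icc 1 X, (∏ j ∈ U, (if d j ∣ x + a j then (1 : ℝ) else 0))) *
        (∏ j ∈ univ \ U, 1 / (d j : ℝ)) ≤ 2 * X / ((univ.lcm d : ℕ) : ℝ) := by
    intro U
    have hm0 : 0 < U.lcm d := by
      rw [Nat.pos_iff_ne_zero, Ne, Finset.lcm_eq_zero_iff]
      rintro ⟨j, -, hj⟩
      have := hd j
      omega
    have hmX : U.lcm d ≤ X := by
      have h1 : U.lcm d ∣ ∏ j ∈ U, d j := Finset.lcm_dvd fun j hj => dvd_prod_of_mem d hj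
      have h2 : ∏ j ∈ U, d j ∣ ∏ j, d j := prod_dvd_prod_of_subset _ _ _ (subset_univ _)
      have h3 : 0 < ∏ j, d j := prod_pos fun j _ => hd j
      exact (Nat.le_of_dvd h3 (h1.trans h2)).trans hX
    have hcount : ∑ x ∈ Icc 1 X, (∏ j ∈ U, (if d j ∣ x + a j then (1 : ℝ) else 0)) =
        (((Icc 1 X).filter fun x => ∀ j ∈ U, d j ∣ x + a j).card : ℝ) := by
      rw [card_filter]
      push_cast
      refine sum_congr rfl fun x _ => ?_
      rw [prod_ite_zero]
      simp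
    have hcard := card_class ((Icc 1 X).filter fun x => ∀ j ∈ U, d j ∣ x + a j) X (U.lcm d) hm0
      (filter_subset _ _) (by
        intro x hx y hy
        have hx' := (mem_filter.mp hx).2
        have hy' := (mem_filter.mp hy).2
        rw [Nat.modEq_iff_dvd]
        have : ((U.lcm d : ℕ) : ℤ) ∣ (y : ℤ) - x := by
          rw [Int.natCast_dvd]
          refine Finset.lcm_dvd fun j hj => ?_
          rw [← Int.natCast_dvd]
          have e1 : (d j : ℤ) ∣ ((y + a j : ℕ) : ℤ) := by exact_mod_cast hy' j hj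
          have e2 : (d j : ℤ) ∣ ((x + a j : ℕ) : ℤ) := by exact_mod_cast hx' j hj
          have e3 := dvd_sub e1 e2
          have e4 : ((y + a j : ℕ) : ℤ) - ((x + a j : ℕ) : ℤ) = (y : ℤ) - x := by
            push_cast
            ring
          rwa [e4] at e3
        exact this)
    have hmR : (0 : ℝ) < (U.lcm d : ℕ) := by exact_mod_cast hm0
    have hN : (((Icc 1 X).filter fun x => ∀ j ∈ U, d j ∣ x + a j).card : ℝ) ≤
        2 * X / ((U.lcm d : ℕ) : ℝ) := by
      have h1 : (((Icc 1 X).filter fun x => ∀ j ∈ U, d j ∣ x + a j).card : ℝ) ≤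
          ((X / U.lcm d : ℕ) : ℝ) + 1 := by exact_mod_cast hcard
      have h2 : ((X / U.lcm d : ℕ) : ℝ) ≤ (X : ℝ) / ((U.lcm d : ℕ) : ℝ) := Nat.cast_div_le
      have h3 : (1 : ℝ) ≤ (X : ℝ) / ((U.lcm d : ℕ) : ℝ) := by
        rw [le_div_iff₀ hmR, one_mul]
        exact_mod_cast hmX
      have h4 : 2 * (X : ℝ) / ((U.lcm d : ℕ) : ℝ) = (X : ℝ) / ((U.lcm d : ℕ) : ℝ) +
          (X : ℝ) / ((U.lcm d : ℕ) : ℝ) := by ring
      rw [h4]
      linarith
    rw [hcount]
    have hprod : (∏ j ∈ univ \ U, 1 / (d j : ℝ)) = 1 / ((∏ j ∈ univ \ U, d j : ℕ) : ℝ) := by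
      push_cast
      rw [one_div, ← prod_inv_distrib]
      exact prod_congr rfl fun j _ => one_div _
    have hPpos : 0 < ∏ j ∈ univ \ U, d j := prod_pos fun j _ => hd j
    have hPR : (0 : ℝ) < ((∏ j ∈ univ \ U, d j : ℕ) : ℝ) := by exact_mod_cast hPpos
    have hlcmle : univ.lcm d ≤ U.lcm d * ∏ j ∈ univ \ U, d j := by
      refine Nat.le_of_dvd (Nat.mul_pos hm0 hPpos) (Finset.lcm_dvd fun j _ => ?_)
      by_cases hj : j ∈ U
      · exact (Finset.dvd_lcm hj).mul_right _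
      · exact (dvd_prod_of_mem d (mem_sdiff.mpr ⟨mem_univ j, hj⟩)).mul_left _
    rw [hprod]
    calc (((Icc 1 X).filter fun x => ∀ j ∈ U, d j ∣ x + a j).card : ℝ) *
          (1 / ((∏ j ∈ univ \ U, d j : ℕ) : ℝ))
        ≤ 2 * X / ((U.lcm d : ℕ) : ℝ) * (1 / ((∏ j ∈ univ \ U, d j : ℕ) : ℝ)) :=
          mul_le_mul_of_nonneg_right hN (by positivity)
      _ = 2 * X / (((U.lcm d : ℕ) : ℝ) * ((∏ j ∈ univ \ U, d j : ℕ) : ℝ)) := by
          field_simp
      _ ≤ 2 * X / ((univ.lcm d : ℕ) : ℝ) := by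
          apply div_le_div_of_nonneg_left (by positivity) (by exact_mod_cast hlcm0)
          exact_mod_cast hlcmle
  calc ∑ x ∈ Icc 1 X, ∏ j, ((if d j ∣ x + a j then (1 : ℝ) else 0) + 1 / (d j : ℝ))
      = ∑ x ∈ Icc 1 X, ∑ U ∈ (univ : Finset (Fin r)).powerset,
          (∏ j ∈ U, (if d j ∣ x + a j then (1 : ℝ) else 0)) * ∏ j ∈ univ \ U, 1 / (d j : ℝ) :=
        sum_congr rfl fun x _ => prod_add _ _ _
    _ = ∑ U ∈ (univ : Finset (Fin r)).powerset, (∑ x ∈ Icc 1 X,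
          (∏ j ∈ U, (if d j ∣ x + a j then (1 : ℝ) else 0))) *
            ∏ j ∈ univ \ U, 1 / (d j : ℝ) := by
        rw [sum_comm]
        exact sum_congr rfl fun U _ => (sum_mul _ _ _).symm
    _ ≤ ∑ U ∈ (univ : Finset (Fin r)).powerset, 2 * X / ((univ.lcm d : ℕ) : ℝ) :=
        sum_le_sum fun U _ => key U
    _ = 2 ^ (r + 1) * X / ((univ.lcm d : ℕ) : ℝ) := by
        rw [sum_const, card_powerset, card_univ, Fintype.card_fin, nsmul_eq_mul]
        push_cast
        ring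

end Pool.Agent.Helper67.AA
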